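import Mathlib

/-!
# A product-Schur configuration with 22 elements
-/

set_option autoImplicit false

namespace Pool.Agent.R804.PSchur

/-- Every 2-colouring of `A` has a monochromatic solution of `x y = z` in `A`. -/
def ProductSchur (A : Finset ℕ) : Prop :=
  ∀ χ : ℕ → Bool, ∃ x ∈ A, ∃ y ∈ A, ∃ z ∈ A, x * y = z ∧ χ x = χ y ∧ χ y = χ z

/-- Three colours that are not all equal. -/
def nm (x y z : Bool) : Bool := !((x == y) && (y == z))

theorem bool1 : ∀ (a C AC AAC E AE ACE AACE : Bool), nm a C AC = true → nm a AC AAC = true →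
    nm a E AE = true → nm a ACE AACE = true → nm C AE ACE = true → nm AC E ACE = true →
    nm AC AE AACE = true → nm AAC E AACE = true →
    (C = a ∧ AC = !a ∧ AAC = !a) ∨ (C = !a ∧ AC = !a ∧ AAC = a) := by decide

theorem bool2 : ∀ (a E AE CE ACE AACE : Bool),
    nm a E AE = true → nm a CE ACE = true → nm a ACE AACE = true → nm (!a) E CE = true →
    nm (!a) AE ACE = true → nm (!a) E ACE = true → nm (!a) AE AACE = true →
    nm a E AACE = true → False := by decide

theorem bool3 : ∀ (a D AD AACD AAACD : Bool),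
    nm a D AD = true → nm a AACD AAACD = true → nm (!a) D AACD = true → nm (!a) AD AAACD = true →
    nm (!a) AD AACD = true → D = !a ∧ AD = a := by decide

theorem bool4 : ∀ (a E AE ACE DE ADE : Bool),
    nm a E AE = true → nm (!a) E ACE = true → nm (!a) E DE = true → nm a E ADE = true →
    nm (!a) AE ADE = true → nm a DE ADE = true → nm a AE ACE = true → False := by decide

theorem productSchur_of_config {A : Finset ℕ} {a c e f d g : ℕ} (ha : a ∈ A)
    (hc : c ∈ A) (hac : a * c ∈ A) (haac : a * a * c ∈ A)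
    (he : e ∈ A) (hae : a * e ∈ A) (hace : a * c * e ∈ A) (haace : a * a * c * e ∈ A)
    (hf : f ∈ A) (haf : a * f ∈ A) (hcf : c * f ∈ A) (hacf : a * c * f ∈ A)
    (haacf : a * a * c * f ∈ A)
    (hd : d ∈ A) (had : a * d ∈ A) (haacd : a * a * c * d ∈ A) (haaacd : a * a * a * c * d ∈ A)
    (hg : g ∈ A) (hag : a * g ∈ A) (hacg : a * c * g ∈ A) (hdg : d * g ∈ A)
    (hadg : a * d * g ∈ A) : ProductSchur A := by
  intro χ
  by_contra H
  push Not at H
  have key : ∀ x y z : ℕ, x ∈ A → y ∈ A → z ∈ A → x * y = z → nm (χ x) (χ y) (χ z) = true := by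
    intro x y z hx hy hz hxy
    have h := H x hx y hy z hz hxy
    unfold nm
    cases h1 : χ x <;> cases h2 : χ y <;> cases h3 : χ z <;> simp_all
  have h1 := bool1 (χ a) (χ c) (χ (a * c)) (χ (a * a * c)) (χ e) (χ (a * e)) (χ (a * c * e))
    (χ (a * a * c * e)) (key _ _ _ ha hc hac rfl) (key _ _ _ ha hac haac (by ring))
    (key _ _ _ ha he hae rfl) (key _ _ _ ha hace haace (by ring))
    (key _ _ _ hc hae hace (by ring)) (key _ _ _ hac he hace rfl)
    (key _ _ _ hac hae haace (by ring)) (key _ _ _ haac he haace rfl)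
  rcases h1 with ⟨h2, h3, h4⟩ | ⟨h2, h3, h4⟩
  · have k1 := bool3 (χ a) (χ d) (χ (a * d)) (χ (a * a * c * d)) (χ (a * a * a * c * d))
      (key _ _ _ ha hd had rfl) (key _ _ _ ha haacd haaacd (by ring))
      (by rw [← h4]; exact key _ _ _ haac hd haacd rfl)
      (by rw [← h4]; exact key _ _ _ haac had haaacd (by ring))
      (by rw [← h3]; exact key _ _ _ hac had haacd (by ring))
    obtain ⟨k2, k3⟩ := k1
    exact bool4 (χ a) (χ g) (χ (a * g)) (χ (a * c * g)) (χ (d * g)) (χ (a * d * g))
      (key _ _ _ ha hg hag rfl) (by rw [← h3]; exact key _ _ _ hac hg hacg rfl)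
      (by rw [← k2]; exact key _ _ _ hd hg hdg rfl)
      (by rw [← k3]; exact key _ _ _ had hg hadg rfl)
      (by rw [← k2]; exact key _ _ _ hd hag hadg (by ring))
      (key _ _ _ ha hdg hadg (by ring))
      (by rw [← h2]; exact key _ _ _ hc hag hacg (by ring))
  · exact bool2 (χ a) (χ f) (χ (a * f)) (χ (c * f)) (χ (a * c * f)) (χ (a * a * c * f))
      (key _ _ _ ha hf haf rfl) (key _ _ _ ha hcf hacf (by ring))
      (key _ _ _ ha hacf haacf (by ring)) (by rw [← h2]; exact key _ _ _ hc hf hcf rfl)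
      (by rw [← h2]; exact key _ _ _ hc haf hacf (by ring))
      (by rw [← h3]; exact key _ _ _ hac hf hacf rfl)
      (by rw [← h3]; exact key _ _ _ hac haf haacf (by ring))
      (by rw [← h4]; exact key _ _ _ haac hf haacf rfl)

end Pool.Agent.R804.PSchur
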