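import Mathlib

/-!
# Binomial random subsets: probabilities of avoiding disjoint families
-/

set_option autoImplicit false

open Finset

namespace Pool.Agent.R804.PSchur

/-- The expectation of `F` over the binomial random subset of `U`. -/
noncomputable def Ex (U : Finset ℕ) (p : ℝ) (F : Finset ℕ → ℝ) : ℝ :=
  ∑ A ∈ U.powerset, p ^ A.card * (1 - p) ^ (U.card - A.card) * F A

theorem Ex_one (U : Finset ℕ) (p : ℝ) : Ex U p (fun _ => 1) = 1 := by
  unfold Ex
  simp only [mul_one]
  rw [Finset.sum_pow_mul_eq_add_pow]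
  simp

theorem Ex_const_mul (U : Finset ℕ) (p c : ℝ) (F : Finset ℕ → ℝ) :
    Ex U p (fun A => c * F A) = c * Ex U p F := by
  unfold Ex
  rw [Finset.mul_sum]
  exact Finset.sum_congr rfl fun A _ => by ring

theorem Ex_mono {U : Finset ℕ} {p : ℝ} (h0 : 0 ≤ p) (h1 : p ≤ 1) {F G : Finset ℕ → ℝ}
    (h : ∀ A ⊆ U, F A ≤ G A) : Ex U p F ≤ Ex U p G := by
  unfold Ex
  refine Finset.sum_le_sum fun A hA => ?_
  have h2 : (0 : ℝ) ≤ 1 - p := by linarith
  exact mul_le_mul_of_nonneg_left (h A (Finset.mem_powerset.mp hA)) (by positivity)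

theorem Ex_add (U : Finset ℕ) (p : ℝ) (F G : Finset ℕ → ℝ) :
    Ex U p (fun A => F A + G A) = Ex U p F + Ex U p G := by
  unfold Ex
  rw [← Finset.sum_add_distrib]
  exact Finset.sum_congr rfl fun A _ => by ring

theorem Ex_sum {ι : Type*} (s : Finset ι) (U : Finset ℕ) (p : ℝ) (F : ι → Finset ℕ → ℝ) :
    Ex U p (fun A => ∑ i ∈ s, F i A) = ∑ i ∈ s, Ex U p (F i) := by
  unfold Ex
  rw [Finset.sum_comm]
  exact Finset.sum_congr rfl fun A _ => by rw [Finset.mul_sum]

theorem Ex_union {S T : Finset ℕ} (h : Disjoint S T) (p : ℝ) (F : Finset ℕ → ℝ) :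
    Ex (S ∪ T) p F = Ex S p (fun B => Ex T p (fun C => F (B ∪ C))) := by
  unfold Ex
  have h1 : ∑ B ∈ S.powerset, p ^ B.card * (1 - p) ^ (S.card - B.card) *
        ∑ C ∈ T.powerset, p ^ C.card * (1 - p) ^ (T.card - C.card) * F (B ∪ C)
      = ∑ q ∈ S.powerset ×ˢ T.powerset, p ^ q.1.card * (1 - p) ^ (S.card - q.1.card) *
        (p ^ q.2.card * (1 - p) ^ (T.card - q.2.card) * F (q.1 ∪ q.2)) := by
    rw [Finset.sum_product]
    exact Finset.sum_congr rfl fun B _ => by rw [Finset.mul_sum]
  rw [h1]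
  refine Finset.sum_bij' (fun A _ => (A ∩ S, A ∩ T)) (fun q _ => q.1 ∪ q.2) ?_ ?_ ?_ ?_ ?_
  · intro A _
    rw [Finset.mem_product, Finset.mem_powerset, Finset.mem_powerset]
    exact ⟨Finset.inter_subset_right, Finset.inter_subset_right⟩
  · intro q hq
    rw [Finset.mem_product, Finset.mem_powerset, Finset.mem_powerset] at hq
    rw [Finset.mem_powerset]
    exact Finset.union_subset_union hq.1 hq.2
  · intro A hA
    rw [Finset.mem_powerset] at hA
    simp only
    rw [← Finset.inter_union_distrib_left, Finset.inter_eq_left.mpr hA]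
  · intro q hq
    rw [Finset.mem_product, Finset.mem_powerset, Finset.mem_powerset] at hq
    obtain ⟨h2, h3⟩ := hq
    have e1 : (q.1 ∪ q.2) ∩ S = q.1 := by
      ext x
      simp only [Finset.mem_inter, Finset.mem_union]
      constructor
      · rintro ⟨hx | hx, hxS⟩
        · exact hx
        · exact absurd (h3 hx) (Finset.disjoint_left.mp h hxS)
      · intro hx
        exact ⟨Or.inl hx, h2 hx⟩
    have e2 : (q.1 ∪ q.2) ∩ T = q.2 := by
      ext x
      simp only [Finset.mem_inter, Finset.mem_union]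
      constructor
      · rintro ⟨hx | hx, hxT⟩
        · exact absurd hxT (Finset.disjoint_left.mp h (h2 hx))
        · exact hx
      · intro hx
        exact ⟨Or.inr hx, h3 hx⟩
    simp only [e1, e2]
  · intro A hA
    rw [Finset.mem_powerset] at hA
    have e0 : A = (A ∩ S) ∪ (A ∩ T) := by
      rw [← Finset.inter_union_distrib_left, Finset.inter_eq_left.mpr hA]
    have e1 : A.card = (A ∩ S).card + (A ∩ T).card := by
      conv_lhs => rw [e0]
      exact Finset.card_union_of_disjoint
        (Finset.disjoint_of_subset_left Finset.inter_subset_right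
          (Finset.disjoint_of_subset_right Finset.inter_subset_right h))
    have e2 : (S ∪ T).card = S.card + T.card := Finset.card_union_of_disjoint h
    have e3 : (A ∩ S).card ≤ S.card := Finset.card_le_card Finset.inter_subset_right
    have e4 : (A ∩ T).card ≤ T.card := Finset.card_le_card Finset.inter_subset_right
    have e5 : (S ∪ T).card - A.card
        = (S.card - (A ∩ S).card) + (T.card - (A ∩ T).card) := by omega
    rw [e5, pow_add]
    simp only
    rw [← e0]
    conv_lhs => rw [e1, pow_add]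
    ring

theorem Ex_avoid_one (S : Finset ℕ) (p : ℝ) :
    Ex S p (fun B => if S ⊆ B then 0 else 1) = 1 - p ^ S.card := by
  have h1 : Ex S p (fun B => if S ⊆ B then (1 : ℝ) else 0) = p ^ S.card := by
    unfold Ex
    rw [Finset.sum_eq_single S]
    · simp
    · intro B hB hne
      rw [Finset.mem_powerset] at hB
      simp only
      rw [if_neg (fun h => hne (Finset.Subset.antisymm hB h)), mul_zero]
    · intro h
      exact absurd (Finset.mem_powerset_self S) h
  have h3 : (fun B => (if S ⊆ B then (0 : ℝ) else 1) + (if S ⊆ B then (1 : ℝ) else 0))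
      = fun _ => 1 := by
    funext B
    by_cases h : S ⊆ B <;> simp [h]
  have h2 : Ex S p (fun B => (if S ⊆ B then (0 : ℝ) else 1) + (if S ⊆ B then (1 : ℝ) else 0)) = 1 := by
    rw [h3, Ex_one]
  rw [Ex_add, h1] at h2
  linarith

theorem Ex_avoid (p : ℝ) (𝓢 : Finset (Finset ℕ)) : ∀ U : Finset ℕ,
    (∀ S ∈ 𝓢, S ⊆ U) → ((𝓢 : Set (Finset ℕ)).PairwiseDisjoint id) →
    Ex U p (fun A => if ∀ S ∈ 𝓢, ¬ S ⊆ A then 1 else 0) = ∏ S ∈ 𝓢, (1 - p ^ S.card) := by
  classical
  induction 𝓢 using Finset.induction_on with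
  | empty =>
    intro U _ _
    simp [Ex_one]
  | insert S 𝓢 hS ih =>
    intro U hU hd
    have hSU : S ⊆ U := hU S (Finset.mem_insert_self _ _)
    have hdis : ∀ S' ∈ 𝓢, Disjoint S S' := by
      intro S' hS'
      exact hd (Finset.mem_coe.mpr (Finset.mem_insert_self _ _))
        (Finset.mem_coe.mpr (Finset.mem_insert_of_mem hS')) (fun h => hS (h ▸ hS'))
    have hU' : U = S ∪ (U \ S) := (Finset.union_sdiff_of_subset hSU).symm
    rw [Finset.prod_insert hS, hU', Ex_union Finset.disjoint_sdiff]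
    have h1 : ∀ B ⊆ S, Ex (U \ S) p (fun C => if ∀ S' ∈ insert S 𝓢, ¬ S' ⊆ B ∪ C then (1 : ℝ) else 0)
        = (if S ⊆ B then 0 else 1) * ∏ S' ∈ 𝓢, (1 - p ^ S'.card) := by
      intro B hB
      rw [← ih (U \ S) (fun S' hS' => ?_) (hd.subset (by simp)), ← Ex_const_mul]
      · unfold Ex
        refine Finset.sum_congr rfl fun C hC => ?_
        rw [Finset.mem_powerset] at hC
        congr 1
        have hC' : Disjoint S C := by
          rw [Finset.disjoint_left]
          intro x hx hxC
          exact (Finset.mem_sdiff.mp (hC hxC)).2 hx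
        have e1 : S ⊆ B ∪ C ↔ S ⊆ B := by
          constructor
          · intro h x hx
            rcases Finset.mem_union.mp (h hx) with h2 | h2
            · exact h2
            · exact absurd h2 (Finset.disjoint_left.mp hC' hx)
          · intro h
            exact h.trans Finset.subset_union_left
        have e2 : ∀ S' ∈ 𝓢, (S' ⊆ B ∪ C ↔ S' ⊆ C) := by
          intro S' hS'
          constructor
          · intro h x hx
            rcases Finset.mem_union.mp (h hx) with h2 | h2
            · exact absurd hx (Finset.disjoint_left.mp (hdis S' hS') (hB h2))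
            · exact h2
          · intro h
            exact h.trans Finset.subset_union_right
        have e3 : (∀ S' ∈ insert S 𝓢, ¬ S' ⊆ B ∪ C) ↔ (¬ S ⊆ B ∧ ∀ S' ∈ 𝓢, ¬ S' ⊆ C) := by
          rw [Finset.forall_mem_insert, e1]
          refine and_congr_right fun _ => ?_
          exact forall₂_congr fun S' hS' => by rw [e2 S' hS']
        simp only
        by_cases h5 : S ⊆ B
        · rw [if_pos h5, zero_mul, if_neg]
          intro h6
          exact (e3.mp h6).1 h5
        · rw [if_neg h5, one_mul]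
          by_cases h6 : ∀ S' ∈ 𝓢, ¬ S' ⊆ C
          · rw [if_pos h6, if_pos (e3.mpr ⟨h5, h6⟩)]
          · rw [if_neg h6, if_neg (fun h7 => h6 (e3.mp h7).2)]
      · intro x hx
        rw [Finset.mem_sdiff]
        exact ⟨hU S' (Finset.mem_insert_of_mem hS') hx,
          Finset.disjoint_right.mp (hdis S' hS') hx⟩
    have h2 : Ex S p (fun B => Ex (U \ S) p
          (fun C => if ∀ S' ∈ insert S 𝓢, ¬ S' ⊆ B ∪ C then (1 : ℝ) else 0))
        = Ex S p (fun B => (∏ S' ∈ 𝓢, (1 - p ^ S'.card)) * (if S ⊆ B then 0 else 1)) := by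
      unfold Ex
      refine Finset.sum_congr rfl fun B hB => ?_
      rw [Finset.mem_powerset] at hB
      congr 1
      have := h1 B hB
      unfold Ex at this
      simp only at this ⊢
      rw [this, mul_comm]
    rw [h2, Ex_const_mul, Ex_avoid_one, mul_comm]

/-- A large subfamily with disjoint multiples. -/
theorem exists_disjoint_family {M : Finset ℕ} (hM : ∀ m ∈ M, 0 < m) (hne : M.Nonempty) (X : ℕ) :
    ∃ V ⊆ Finset.Icc 1 X, (∀ v ∈ V, ∀ w ∈ V, v ≠ w → Disjoint (M.image (v * ·)) (M.image (w * ·))) ∧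
      X ≤ V.card * (M.card * M.card) := by
  classical
  set P : Finset (Finset ℕ) := (Finset.Icc 1 X).powerset.filter (fun V =>
    ∀ v ∈ V, ∀ w ∈ V, v ≠ w → Disjoint (M.image (v * ·)) (M.image (w * ·))) with hP
  obtain ⟨V, hV, hmax⟩ := Finset.exists_max_image P Finset.card ⟨∅, by simp [hP]⟩
  rw [hP, Finset.mem_filter, Finset.mem_powerset] at hV
  refine ⟨V, hV.1, hV.2, ?_⟩
  -- every x conflicts with some v
  have hconf : ∀ x ∈ Finset.Icc 1 X, ∃ v ∈ V, ∃ m ∈ M, ∃ m' ∈ M, x * m = v * m' := by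
    intro x hx
    by_contra hcon
    push Not at hcon
    have hxV : x ∉ V := by
      intro h
      obtain ⟨m, hm⟩ := hne
      exact hcon x h m hm m hm rfl
    have hins : insert x V ∈ P := by
      rw [hP, Finset.mem_filter, Finset.mem_powerset]
      refine ⟨Finset.insert_subset hx hV.1, ?_⟩
      have hdx : ∀ w ∈ V, Disjoint (M.image (x * ·)) (M.image (w * ·)) := by
        intro w hw
        rw [Finset.disjoint_left]
        intro y hy hy'
        obtain ⟨m, hm, rfl⟩ := Finset.mem_image.mp hy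
        obtain ⟨m', hm', h⟩ := Finset.mem_image.mp hy'
        exact hcon w hw m hm m' hm' h.symm
      intro v hv w hw hvw
      rcases Finset.mem_insert.mp hv with hv' | hv'
      · rcases Finset.mem_insert.mp hw with hw' | hw'
        · exact absurd (hv'.trans hw'.symm) hvw
        · rw [hv']
          exact hdx w hw'
      · rcases Finset.mem_insert.mp hw with hw' | hw'
        · rw [hw']
          exact (hdx v hv').symm
        · exact hV.2 v hv' w hw' hvw
    have := hmax _ hins
    rw [Finset.card_insert_of_notMem hxV] at this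
    omega
  choose! v hv m hm m' hm' hxm using hconf
  have hcard := Finset.card_le_card_of_injOn (s := Finset.Icc 1 X) (t := V ×ˢ (M ×ˢ M))
    (fun x => (v x, m x, m' x)) (by
      intro x hx
      rw [Finset.mem_coe] at hx
      exact Finset.mem_coe.mpr (Finset.mem_product.mpr ⟨hv x hx,
        Finset.mem_product.mpr ⟨hm x hx, hm' x hx⟩⟩)) (by
      intro x hx y hy hxy
      rw [Finset.mem_coe] at hx hy
      simp only [Prod.mk.injEq] at hxy
      obtain ⟨h1, h2, h3⟩ := hxy
      have h4 := hxm x hx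
      have h5 := hxm y hy
      rw [h1, h2, h3, ← h5] at h4
      exact Nat.eq_of_mul_eq_mul_right (hM _ (hm y hy)) h4)
  rw [Finset.card_product, Finset.card_product] at hcard
  simpa using hcard

/-- The main probabilistic estimate: it is unlikely that no `v ≤ X` has all its multiples by the
elements of `M` in the random set. -/
theorem Ex_no_multiple {n X k : ℕ} {p : ℝ} (h0 : 0 ≤ p) (h1 : p ≤ 1) {M : Finset ℕ}
    (hM : ∀ m ∈ M, 0 < m) (hne : M.Nonempty) (hk : M.card ≤ k) (hX : ∀ m ∈ M, X * m ≤ n) :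
    Ex (Finset.Icc 1 n) p (fun A => if ∀ v ∈ Finset.Icc 1 X, ∃ m ∈ M, v * m ∉ A then 1 else 0)
      ≤ Real.exp (-(X * p ^ k / (k * k : ℕ))) := by
  classical
  obtain ⟨V, hVX, hVd, hVc⟩ := exists_disjoint_family hM hne X
  set 𝓢 : Finset (Finset ℕ) := V.image (fun v => M.image (v * ·)) with h𝓢
  have hinj : Set.InjOn (fun v => M.image (v * ·)) (V : Set ℕ) := by
    intro v hv w hw h
    by_contra hvw
    have h2 := hVd v hv w hw hvw
    simp only at h
    rw [h, disjoint_self, Finset.bot_eq_empty, Finset.image_eq_empty] at h2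
    exact hne.ne_empty h2
  have hcard𝓢 : 𝓢.card = V.card := by
    rw [h𝓢]
    exact Finset.card_image_of_injOn hinj
  have hsub : ∀ S ∈ 𝓢, S ⊆ Finset.Icc 1 n := by
    intro S hS x hx
    rw [h𝓢] at hS
    obtain ⟨v, hv, rfl⟩ := Finset.mem_image.mp hS
    obtain ⟨m, hm, rfl⟩ := Finset.mem_image.mp hx
    have hv' := Finset.mem_Icc.mp (hVX hv)
    rw [Finset.mem_Icc]
    refine ⟨Nat.mul_pos hv'.1 (hM m hm), ?_⟩
    exact (Nat.mul_le_mul_right m hv'.2).trans (hX m hm)
  have hdis : ((𝓢 : Set (Finset ℕ)).PairwiseDisjoint id) := by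
    intro S hS T hT hST
    rw [Finset.mem_coe, h𝓢] at hS hT
    obtain ⟨v, hv, rfl⟩ := Finset.mem_image.mp hS
    obtain ⟨w, hw, rfl⟩ := Finset.mem_image.mp hT
    exact hVd v hv w hw (fun h => hST (by rw [h]))
  have hkp : 0 < k := lt_of_lt_of_le hne.card_pos hk
  have hfac : ∀ S ∈ 𝓢, (0 : ℝ) ≤ 1 - p ^ S.card ∧ 1 - p ^ S.card ≤ Real.exp (-(p ^ k)) := by
    intro S hS
    rw [h𝓢] at hS
    obtain ⟨v, hv, rfl⟩ := Finset.mem_image.mp hS
    have h2 : (M.image (v * ·)).card ≤ k := Finset.card_image_le.trans hk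
    have h3 : p ^ k ≤ p ^ (M.image (v * ·)).card := pow_le_pow_of_le_one h0 h1 h2
    have h4 : p ^ (M.image (v * ·)).card ≤ 1 := pow_le_one₀ h0 h1
    have h5 := Real.add_one_le_exp (-(p ^ k))
    constructor <;> linarith
  calc Ex (Finset.Icc 1 n) p
        (fun A => if ∀ v ∈ Finset.Icc 1 X, ∃ m ∈ M, v * m ∉ A then 1 else 0)
      ≤ Ex (Finset.Icc 1 n) p (fun A => if ∀ S ∈ 𝓢, ¬ S ⊆ A then 1 else 0) := by
        refine Ex_mono h0 h1 fun A _ => ?_
        by_cases h2 : ∀ v ∈ Finset.Icc 1 X, ∃ m ∈ M, v * m ∉ A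
        · have h3 : ∀ S ∈ 𝓢, ¬ S ⊆ A := by
            intro S hS hSA
            rw [h𝓢] at hS
            obtain ⟨v, hv, rfl⟩ := Finset.mem_image.mp hS
            obtain ⟨m, hm, hvm⟩ := h2 v (hVX hv)
            exact hvm (hSA (Finset.mem_image_of_mem _ hm))
          rw [if_pos h2, if_pos h3]
        · rw [if_neg h2]
          split_ifs <;> norm_num
    _ = ∏ S ∈ 𝓢, (1 - p ^ S.card) := Ex_avoid p 𝓢 _ hsub hdis
    _ ≤ ∏ S ∈ 𝓢, Real.exp (-(p ^ k)) :=
        Finset.prod_le_prod (fun S hS => (hfac S hS).1) (fun S hS => (hfac S hS).2)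
    _ = Real.exp (-(V.card * p ^ k)) := by
        rw [Finset.prod_const, hcard𝓢, ← Real.exp_nat_mul]
        congr 1
        ring
    _ ≤ Real.exp (-(X * p ^ k / (k * k : ℕ))) := by
        apply Real.exp_le_exp.mpr
        apply neg_le_neg
        have hkk : (0 : ℝ) < ((k * k : ℕ) : ℝ) := by exact_mod_cast Nat.mul_pos hkp hkp
        rw [div_le_iff₀ hkk]
        have h6 : X ≤ V.card * (k * k) := hVc.trans (Nat.mul_le_mul_left _ (Nat.mul_le_mul hk hk))
        have h7 : (X : ℝ) ≤ V.card * ((k * k : ℕ) : ℝ) := by exact_mod_cast h6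
        have h8 : (0 : ℝ) ≤ p ^ k := pow_nonneg h0 k
        nlinarith

end Pool.Agent.R804.PSchur
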