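import Pool.Agent.R804.PSchur.Det
import Pool.Agent.R804.PSchur.Prob

/-!
# The union bound
-/

set_option autoImplicit false

open Finset

namespace Pool.Agent.R804.PSchur

/-- No `v ≤ X` has all its multiples by the elements of `M` in `A`. -/
def Bad (M : Finset ℕ) (X : ℕ) (A : Finset ℕ) : Prop :=
  ∀ v ∈ Finset.Icc 1 X, ∃ m ∈ M, v * m ∉ A

open Classical in
/-- The indicator of a bad event. -/
noncomputable def bi (M : Finset ℕ) (X : ℕ) (A : Finset ℕ) : ℝ := if Bad M X A then 1 else 0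

theorem bi_nonneg (M : Finset ℕ) (X : ℕ) (A : Finset ℕ) : 0 ≤ bi M X A := by
  unfold bi; split_ifs <;> norm_num

theorem bi_of_bad {M : Finset ℕ} {X : ℕ} {A : Finset ℕ} (h : Bad M X A) : bi M X A = 1 := by
  unfold bi; rw [if_pos h]

theorem exists_of_not_bad {M : Finset ℕ} {X : ℕ} {A : Finset ℕ} (h : ¬ Bad M X A) :
    ∃ v ∈ Finset.Icc 1 X, ∀ m ∈ M, v * m ∈ A := by
  unfold Bad at h
  push Not at h
  exact h

/-- The sum of the indicators of the bad events. -/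
noncomputable def tot (s : ℕ) (A : Finset ℕ) : ℝ :=
  bi {1} s A + (∑ a ∈ Icc 1 s, bi {1, a, a * a} (s ^ 3) A +
    (∑ a ∈ Icc 1 s, ∑ c ∈ Icc 1 (s ^ 3), (bi {1, a, a * c, a * a * c} (s ^ 4) A +
      bi {1, a, c, a * c, a * a * c} (s ^ 5) A + bi {1, a, a * a * c, a * a * a * c} (s ^ 4) A) +
    ∑ a ∈ Icc 1 s, ∑ c ∈ Icc 1 (s ^ 3), ∑ d ∈ Icc 1 (s ^ 4),
      bi {1, a, a * c, d, a * d} (s ^ 5) A))

theorem tot_ge_one {s : ℕ} {A : Finset ℕ} (hA : ¬ ProductSchur A) : 1 ≤ tot s A := by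
  have p1 : 0 ≤ bi {1} s A := bi_nonneg _ _ _
  have p2 : 0 ≤ ∑ a ∈ Icc 1 s, bi {1, a, a * a} (s ^ 3) A :=
    Finset.sum_nonneg fun _ _ => bi_nonneg _ _ _
  have p3' : ∀ a c : ℕ, 0 ≤ bi {1, a, a * c, a * a * c} (s ^ 4) A +
      bi {1, a, c, a * c, a * a * c} (s ^ 5) A +
      bi {1, a, a * a * c, a * a * a * c} (s ^ 4) A := fun a c =>
    add_nonneg (add_nonneg (bi_nonneg _ _ _) (bi_nonneg _ _ _)) (bi_nonneg _ _ _)
  have p3 : 0 ≤ ∑ a ∈ Icc 1 s, ∑ c ∈ Icc 1 (s ^ 3), (bi {1, a, a * c, a * a * c} (s ^ 4) A +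
      bi {1, a, c, a * c, a * a * c} (s ^ 5) A +
      bi {1, a, a * a * c, a * a * a * c} (s ^ 4) A) :=
    Finset.sum_nonneg fun a _ => Finset.sum_nonneg fun c _ => p3' a c
  have p4 : 0 ≤ ∑ a ∈ Icc 1 s, ∑ c ∈ Icc 1 (s ^ 3), ∑ d ∈ Icc 1 (s ^ 4),
      bi {1, a, a * c, d, a * d} (s ^ 5) A :=
    Finset.sum_nonneg fun _ _ => Finset.sum_nonneg fun _ _ => Finset.sum_nonneg fun _ _ =>
      bi_nonneg _ _ _
  unfold tot
  by_cases h1 : Bad {1} s A
  · rw [bi_of_bad h1]; linarith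
  obtain ⟨a, ha, ha'⟩ := exists_of_not_bad h1
  have ga : a ∈ A := by simpa using ha' 1 (by simp)
  by_cases h2 : Bad {1, a, a * a} (s ^ 3) A
  · have := Finset.single_le_sum (f := fun a => bi {1, a, a * a} (s ^ 3) A)
      (fun i _ => bi_nonneg _ _ _) ha
    rw [bi_of_bad h2] at this
    linarith
  obtain ⟨c, hc, hc'⟩ := exists_of_not_bad h2
  have gc : c ∈ A := by simpa using hc' 1 (by simp)
  have gac : a * c ∈ A := by have := hc' a (by simp); rwa [mul_comm] at this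
  have gaac : a * a * c ∈ A := by have := hc' (a * a) (by simp); rwa [mul_comm] at this
  have q3 : bi {1, a, a * c, a * a * c} (s ^ 4) A + bi {1, a, c, a * c, a * a * c} (s ^ 5) A +
      bi {1, a, a * a * c, a * a * a * c} (s ^ 4) A
      ≤ ∑ a ∈ Icc 1 s, ∑ c ∈ Icc 1 (s ^ 3), (bi {1, a, a * c, a * a * c} (s ^ 4) A +
      bi {1, a, c, a * c, a * a * c} (s ^ 5) A +
      bi {1, a, a * a * c, a * a * a * c} (s ^ 4) A) := by
    have e1 := Finset.single_le_sum (f := fun c => bi {1, a, a * c, a * a * c} (s ^ 4) A +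
      bi {1, a, c, a * c, a * a * c} (s ^ 5) A + bi {1, a, a * a * c, a * a * a * c} (s ^ 4) A)
      (fun i _ => p3' a i) hc
    have e2 := Finset.single_le_sum (f := fun a => ∑ c ∈ Icc 1 (s ^ 3),
      (bi {1, a, a * c, a * a * c} (s ^ 4) A + bi {1, a, c, a * c, a * a * c} (s ^ 5) A +
      bi {1, a, a * a * c, a * a * a * c} (s ^ 4) A))
      (fun i _ => Finset.sum_nonneg fun c _ => p3' i c) ha
    exact e1.trans e2
  have n1 := bi_nonneg {1, a, a * c, a * a * c} (s ^ 4) A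
  have n2 := bi_nonneg {1, a, c, a * c, a * a * c} (s ^ 5) A
  have n3 := bi_nonneg {1, a, a * a * c, a * a * a * c} (s ^ 4) A
  by_cases h3 : Bad {1, a, a * c, a * a * c} (s ^ 4) A
  · rw [bi_of_bad h3] at q3; linarith
  obtain ⟨e, _, he'⟩ := exists_of_not_bad h3
  by_cases h4 : Bad {1, a, c, a * c, a * a * c} (s ^ 5) A
  · rw [bi_of_bad h4] at q3; linarith
  obtain ⟨f, _, hf'⟩ := exists_of_not_bad h4
  by_cases h5 : Bad {1, a, a * a * c, a * a * a * c} (s ^ 4) A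
  · rw [bi_of_bad h5] at q3; linarith
  obtain ⟨d, hd, hd'⟩ := exists_of_not_bad h5
  by_cases h6 : Bad {1, a, a * c, d, a * d} (s ^ 5) A
  · have e1 := Finset.single_le_sum (f := fun d => bi {1, a, a * c, d, a * d} (s ^ 5) A)
      (fun i _ => bi_nonneg _ _ _) hd
    have e2 := Finset.single_le_sum (f := fun c => ∑ d ∈ Icc 1 (s ^ 4),
      bi {1, a, a * c, d, a * d} (s ^ 5) A)
      (fun i _ => Finset.sum_nonneg fun _ _ => bi_nonneg _ _ _) hc
    have e3 := Finset.single_le_sum (f := fun a => ∑ c ∈ Icc 1 (s ^ 3), ∑ d ∈ Icc 1 (s ^ 4),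
      bi {1, a, a * c, d, a * d} (s ^ 5) A)
      (fun i _ => Finset.sum_nonneg fun _ _ => Finset.sum_nonneg fun _ _ => bi_nonneg _ _ _) ha
    rw [bi_of_bad h6] at e1
    linarith
  obtain ⟨g, _, hg'⟩ := exists_of_not_bad h6
  exfalso
  apply hA
  exact productSchur_of_config (a := a) (c := c) (e := e) (f := f) (d := d) (g := g)
    ga gc gac gaac
    (by simpa using he' 1 (by simp)) (by rw [mul_comm]; exact he' a (by simp))
    (by rw [mul_comm]; exact he' (a * c) (by simp))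
    (by rw [mul_comm]; exact he' (a * a * c) (by simp))
    (by simpa using hf' 1 (by simp)) (by rw [mul_comm]; exact hf' a (by simp))
    (by rw [mul_comm]; exact hf' c (by simp)) (by rw [mul_comm]; exact hf' (a * c) (by simp))
    (by rw [mul_comm]; exact hf' (a * a * c) (by simp))
    (by simpa using hd' 1 (by simp)) (by rw [mul_comm]; exact hd' a (by simp))
    (by rw [mul_comm]; exact hd' (a * a * c) (by simp))
    (by rw [mul_comm]; exact hd' (a * a * a * c) (by simp))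
    (by simpa using hg' 1 (by simp)) (by rw [mul_comm]; exact hg' a (by simp))
    (by rw [mul_comm]; exact hg' (a * c) (by simp)) (by rw [mul_comm]; exact hg' d (by simp))
    (by rw [mul_comm]; exact hg' (a * d) (by simp))

theorem Ex_bi_le {n s : ℕ} {p : ℝ} (h0 : 0 ≤ p) (h1 : p ≤ 1) (hsp : 1 ≤ (s : ℝ) * p)
    {k : ℕ} (hk1 : 1 ≤ k) (hk5 : k ≤ 5) {M : Finset ℕ}
    (hM : ∀ m ∈ M, 0 < m) (hne : M.Nonempty) (hk : M.card ≤ k) (hX : ∀ m ∈ M, s ^ k * m ≤ n) :
    Ex (Finset.Icc 1 n) p (bi M (s ^ k)) ≤ Real.exp (-((s : ℝ) * p / 25)) := by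
  have h := Ex_no_multiple h0 h1 hM hne hk hX
  have e : bi M (s ^ k) = fun A => if ∀ v ∈ Finset.Icc 1 (s ^ k), ∃ m ∈ M, v * m ∉ A
      then (1 : ℝ) else 0 := by
    funext A
    unfold bi Bad
    congr
  rw [e]
  refine h.trans (Real.exp_le_exp.mpr (neg_le_neg ?_))
  have h2 : ((s ^ k : ℕ) : ℝ) * p ^ k = ((s : ℝ) * p) ^ k := by
    push_cast; rw [mul_pow]
  rw [h2]
  have h3 : (s : ℝ) * p ≤ ((s : ℝ) * p) ^ k := le_self_pow₀ hsp (by omega)
  have h4 : ((k * k : ℕ) : ℝ) ≤ 25 := by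
    have : k * k ≤ 5 * 5 := Nat.mul_le_mul hk5 hk5
    exact_mod_cast this
  have h5 : (0 : ℝ) < ((k * k : ℕ) : ℝ) := by
    exact_mod_cast Nat.mul_pos hk1 hk1
  calc (s : ℝ) * p / 25 ≤ (s : ℝ) * p / ((k * k : ℕ) : ℝ) :=
        div_le_div_of_nonneg_left (by linarith) h5 h4
    _ ≤ ((s : ℝ) * p) ^ k / ((k * k : ℕ) : ℝ) := div_le_div_of_nonneg_right h3 h5.le

theorem card_le_four (a b c d : ℕ) : ({a, b, c, d} : Finset ℕ).card ≤ 4 := Finset.card_le_four
theorem card_le_five (a b c d e : ℕ) : ({a, b, c, d, e} : Finset ℕ).card ≤ 5 :=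
  Finset.card_le_five

theorem Ex_tot_le {n s : ℕ} {p : ℝ} (h0 : 0 ≤ p) (h1 : p ≤ 1) (hsp : 1 ≤ (s : ℝ) * p)
    (hsn : s ^ 10 ≤ n) :
    Ex (Finset.Icc 1 n) p (tot s) ≤ 6 * (s : ℝ) ^ 8 * Real.exp (-((s : ℝ) * p / 25)) := by
  set B : ℝ := Real.exp (-((s : ℝ) * p / 25)) with hB
  have hB0 : 0 ≤ B := (Real.exp_pos _).le
  have hs1 : 1 ≤ s := by
    by_contra h
    have : s = 0 := by omega
    rw [this] at hsp
    norm_num at hsp
  have hs1' : (1 : ℝ) ≤ s := by exact_mod_cast hs1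
  have hpow : ∀ j : ℕ, j ≤ 10 → s ^ j ≤ n := fun j hj =>
    (Nat.pow_le_pow_right hs1 hj).trans hsn
  have b1 : Ex (Finset.Icc 1 n) p (bi {1} (s ^ 1)) ≤ B :=
    Ex_bi_le h0 h1 hsp (by norm_num) (by norm_num) (by simp) (by simp) (by simp)
      (by intro m hm; rw [Finset.mem_singleton] at hm; subst hm
          rw [mul_one]; exact hpow 1 (by norm_num))
  rw [pow_one] at b1
  have b2 : ∀ a ∈ Icc 1 s, Ex (Finset.Icc 1 n) p (bi {1, a, a * a} (s ^ 3)) ≤ B := by
    intro a ha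
    rw [Finset.mem_Icc] at ha
    refine Ex_bi_le h0 h1 hsp (by norm_num) (by norm_num) ?_ (by simp) Finset.card_le_three ?_
    · intro m hm
      simp only [Finset.mem_insert, Finset.mem_singleton] at hm
      rcases hm with rfl | rfl | rfl
      · norm_num
      · omega
      · exact Nat.mul_pos ha.1 ha.1
    · intro m hm
      have hms : m ≤ s ^ 2 := by
        simp only [Finset.mem_insert, Finset.mem_singleton] at hm
        rcases hm with rfl | rfl | rfl
        · exact Nat.one_le_pow _ _ hs1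
        · exact ha.2.trans (Nat.le_self_pow (by norm_num) s)
        · rw [pow_two]; exact Nat.mul_le_mul ha.2 ha.2
      calc s ^ 3 * m ≤ s ^ 3 * s ^ 2 := Nat.mul_le_mul_left _ hms
        _ = s ^ 5 := by ring
        _ ≤ n := hpow 5 (by norm_num)
  have b3 : ∀ a ∈ Icc 1 s, ∀ c ∈ Icc 1 (s ^ 3),
      Ex (Finset.Icc 1 n) p (bi {1, a, a * c, a * a * c} (s ^ 4)) ≤ B := by
    intro a ha c hc
    rw [Finset.mem_Icc] at ha hc
    have hac := Nat.mul_pos ha.1 hc.1
    have haa := Nat.mul_pos ha.1 ha.1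
    refine Ex_bi_le h0 h1 hsp (by norm_num) (by norm_num) ?_ (by simp) Finset.card_le_four ?_
    · intro m hm
      simp only [Finset.mem_insert, Finset.mem_singleton] at hm
      rcases hm with rfl | rfl | rfl | rfl
      · norm_num
      · omega
      · exact hac
      · exact Nat.mul_pos haa hc.1
    · intro m hm
      have hms : m ≤ s ^ 5 := by
        simp only [Finset.mem_insert, Finset.mem_singleton] at hm
        rcases hm with rfl | rfl | rfl | rfl
        · exact Nat.one_le_pow _ _ hs1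
        · exact ha.2.trans (Nat.le_self_pow (by norm_num) s)
        · calc a * c ≤ s * s ^ 3 := Nat.mul_le_mul ha.2 hc.2
            _ = s ^ 4 := by ring
            _ ≤ s ^ 5 := Nat.pow_le_pow_right hs1 (by norm_num)
        · calc a * a * c ≤ s * s * s ^ 3 := Nat.mul_le_mul (Nat.mul_le_mul ha.2 ha.2) hc.2
            _ = s ^ 5 := by ring
      calc s ^ 4 * m ≤ s ^ 4 * s ^ 5 := Nat.mul_le_mul_left _ hms
        _ = s ^ 9 := by ring
        _ ≤ n := hpow 9 (by norm_num)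
  have b4 : ∀ a ∈ Icc 1 s, ∀ c ∈ Icc 1 (s ^ 3),
      Ex (Finset.Icc 1 n) p (bi {1, a, c, a * c, a * a * c} (s ^ 5)) ≤ B := by
    intro a ha c hc
    rw [Finset.mem_Icc] at ha hc
    have hac := Nat.mul_pos ha.1 hc.1
    have haa := Nat.mul_pos ha.1 ha.1
    refine Ex_bi_le h0 h1 hsp (by norm_num) (by norm_num) ?_ (by simp) Finset.card_le_five ?_
    · intro m hm
      simp only [Finset.mem_insert, Finset.mem_singleton] at hm
      rcases hm with rfl | rfl | rfl | rfl | rfl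
      · norm_num
      · omega
      · omega
      · exact hac
      · exact Nat.mul_pos haa hc.1
    · intro m hm
      have hms : m ≤ s ^ 5 := by
        simp only [Finset.mem_insert, Finset.mem_singleton] at hm
        rcases hm with rfl | rfl | rfl | rfl | rfl
        · exact Nat.one_le_pow _ _ hs1
        · exact ha.2.trans (Nat.le_self_pow (by norm_num) s)
        · exact hc.2.trans (Nat.pow_le_pow_right hs1 (by norm_num))
        · calc a * c ≤ s * s ^ 3 := Nat.mul_le_mul ha.2 hc.2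
            _ = s ^ 4 := by ring
            _ ≤ s ^ 5 := Nat.pow_le_pow_right hs1 (by norm_num)
        · calc a * a * c ≤ s * s * s ^ 3 := Nat.mul_le_mul (Nat.mul_le_mul ha.2 ha.2) hc.2
            _ = s ^ 5 := by ring
      calc s ^ 5 * m ≤ s ^ 5 * s ^ 5 := Nat.mul_le_mul_left _ hms
        _ = s ^ 10 := by ring
        _ ≤ n := hsn
  have b5 : ∀ a ∈ Icc 1 s, ∀ c ∈ Icc 1 (s ^ 3),
      Ex (Finset.Icc 1 n) p (bi {1, a, a * a * c, a * a * a * c} (s ^ 4)) ≤ B := by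
    intro a ha c hc
    rw [Finset.mem_Icc] at ha hc
    have haa := Nat.mul_pos ha.1 ha.1
    have haaa := Nat.mul_pos haa ha.1
    refine Ex_bi_le h0 h1 hsp (by norm_num) (by norm_num) ?_ (by simp) Finset.card_le_four ?_
    · intro m hm
      simp only [Finset.mem_insert, Finset.mem_singleton] at hm
      rcases hm with rfl | rfl | rfl | rfl
      · norm_num
      · omega
      · exact Nat.mul_pos haa hc.1
      · exact Nat.mul_pos haaa hc.1
    · intro m hm
      have hms : m ≤ s ^ 6 := by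
        simp only [Finset.mem_insert, Finset.mem_singleton] at hm
        rcases hm with rfl | rfl | rfl | rfl
        · exact Nat.one_le_pow _ _ hs1
        · exact ha.2.trans (Nat.le_self_pow (by norm_num) s)
        · calc a * a * c ≤ s * s * s ^ 3 := Nat.mul_le_mul (Nat.mul_le_mul ha.2 ha.2) hc.2
            _ = s ^ 5 := by ring
            _ ≤ s ^ 6 := Nat.pow_le_pow_right hs1 (by norm_num)
        · calc a * a * a * c ≤ s * s * s * s ^ 3 :=
                Nat.mul_le_mul (Nat.mul_le_mul (Nat.mul_le_mul ha.2 ha.2) ha.2) hc.2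
            _ = s ^ 6 := by ring
      calc s ^ 4 * m ≤ s ^ 4 * s ^ 6 := Nat.mul_le_mul_left _ hms
        _ = s ^ 10 := by ring
        _ ≤ n := hsn
  have b6 : ∀ a ∈ Icc 1 s, ∀ c ∈ Icc 1 (s ^ 3), ∀ d ∈ Icc 1 (s ^ 4),
      Ex (Finset.Icc 1 n) p (bi {1, a, a * c, d, a * d} (s ^ 5)) ≤ B := by
    intro a ha c hc d hd
    rw [Finset.mem_Icc] at ha hc hd
    refine Ex_bi_le h0 h1 hsp (by norm_num) (by norm_num) ?_ (by simp) Finset.card_le_five ?_
    · intro m hm
      simp only [Finset.mem_insert, Finset.mem_singleton] at hm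
      rcases hm with rfl | rfl | rfl | rfl | rfl
      · norm_num
      · omega
      · exact Nat.mul_pos ha.1 hc.1
      · omega
      · exact Nat.mul_pos ha.1 hd.1
    · intro m hm
      have hms : m ≤ s ^ 5 := by
        simp only [Finset.mem_insert, Finset.mem_singleton] at hm
        rcases hm with rfl | rfl | rfl | rfl | rfl
        · exact Nat.one_le_pow _ _ hs1
        · exact ha.2.trans (Nat.le_self_pow (by norm_num) s)
        · calc a * c ≤ s * s ^ 3 := Nat.mul_le_mul ha.2 hc.2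
            _ = s ^ 4 := by ring
            _ ≤ s ^ 5 := Nat.pow_le_pow_right hs1 (by norm_num)
        · exact hd.2.trans (Nat.pow_le_pow_right hs1 (by norm_num))
        · calc a * d ≤ s * s ^ 4 := Nat.mul_le_mul ha.2 hd.2
            _ = s ^ 5 := by ring
      calc s ^ 5 * m ≤ s ^ 5 * s ^ 5 := Nat.mul_le_mul_left _ hms
        _ = s ^ 10 := by ring
        _ ≤ n := hsn
  have hlin : Ex (Finset.Icc 1 n) p (tot s)
      = Ex (Finset.Icc 1 n) p (bi {1} s) + (∑ a ∈ Icc 1 s,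
        Ex (Finset.Icc 1 n) p (bi {1, a, a * a} (s ^ 3)) +
        (∑ a ∈ Icc 1 s, ∑ c ∈ Icc 1 (s ^ 3),
          (Ex (Finset.Icc 1 n) p (bi {1, a, a * c, a * a * c} (s ^ 4)) +
          Ex (Finset.Icc 1 n) p (bi {1, a, c, a * c, a * a * c} (s ^ 5)) +
          Ex (Finset.Icc 1 n) p (bi {1, a, a * a * c, a * a * a * c} (s ^ 4))) +
        ∑ a ∈ Icc 1 s, ∑ c ∈ Icc 1 (s ^ 3), ∑ d ∈ Icc 1 (s ^ 4),
          Ex (Finset.Icc 1 n) p (bi {1, a, a * c, d, a * d} (s ^ 5)))) := by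
    unfold tot
    simp only [Ex_add, Ex_sum]
  rw [hlin]
  have c2 : ∑ a ∈ Icc 1 s, Ex (Finset.Icc 1 n) p (bi {1, a, a * a} (s ^ 3)) ≤ s * B := by
    refine (Finset.sum_le_sum b2).trans ?_
    simp
  have c3 : ∑ a ∈ Icc 1 s, ∑ c ∈ Icc 1 (s ^ 3),
          (Ex (Finset.Icc 1 n) p (bi {1, a, a * c, a * a * c} (s ^ 4)) +
          Ex (Finset.Icc 1 n) p (bi {1, a, c, a * c, a * a * c} (s ^ 5)) +
          Ex (Finset.Icc 1 n) p (bi {1, a, a * a * c, a * a * a * c} (s ^ 4)))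
      ≤ (s : ℝ) * ((s : ℝ) ^ 3 * (3 * B)) := by
    refine (Finset.sum_le_sum fun a ha => Finset.sum_le_sum (g := fun _ => 3 * B)
      fun c hc => ?_).trans ?_
    · have := b3 a ha c hc
      have := b4 a ha c hc
      have := b5 a ha c hc
      linarith
    · simp
  have c4 : ∑ a ∈ Icc 1 s, ∑ c ∈ Icc 1 (s ^ 3), ∑ d ∈ Icc 1 (s ^ 4),
          Ex (Finset.Icc 1 n) p (bi {1, a, a * c, d, a * d} (s ^ 5))
      ≤ (s : ℝ) * ((s : ℝ) ^ 3 * ((s : ℝ) ^ 4 * B)) := by
    refine (Finset.sum_le_sum fun a ha => Finset.sum_le_sum fun c hc =>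
      Finset.sum_le_sum (g := fun _ => B) fun d hd => b6 a ha c hc d hd).trans ?_
    simp
  have d1 : (1 : ℝ) ≤ (s : ℝ) ^ 8 := one_le_pow₀ hs1'
  have d2 : (s : ℝ) ≤ (s : ℝ) ^ 8 := le_self_pow₀ hs1' (by norm_num)
  have d3 : (s : ℝ) ^ 4 ≤ (s : ℝ) ^ 8 := pow_le_pow_right₀ hs1' (by norm_num)
  have f1 : B ≤ (s : ℝ) ^ 8 * B := le_mul_of_one_le_left hB0 d1
  have f2 : (s : ℝ) * B ≤ (s : ℝ) ^ 8 * B := mul_le_mul_of_nonneg_right d2 hB0
  have f3 : (s : ℝ) ^ 4 * B ≤ (s : ℝ) ^ 8 * B := mul_le_mul_of_nonneg_right d3 hB0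
  have g3 : (s : ℝ) * ((s : ℝ) ^ 3 * (3 * B)) = 3 * ((s : ℝ) ^ 4 * B) := by ring
  have g4 : (s : ℝ) * ((s : ℝ) ^ 3 * ((s : ℝ) ^ 4 * B)) = (s : ℝ) ^ 8 * B := by ring
  rw [g3] at c3
  rw [g4] at c4
  linarith

end Pool.Agent.R804.PSchur
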